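import Mathlib
import Pool.Agent.MP_ac0662_al.Cover

-- part MP_ac0662_al.TwoGen
section

/-! Every finite abelian `p`-group is the additive group of `Z[X]/(P, Q)` with `P` congruent to a
power of a given linear polynomial and `Q` congruent to zero modulo `p`. -/

namespace Pool.Agent.MP_ac0662_al

open Polynomial Finset

lemma degree_sum_lt (H : ℕ → ℤ[X]) (n : ℕ) (hH : ∀ i < n, (H i).Monic ∧ (H i).natDegree = i)
    (c : ℕ → ℤ) : (∑ i ∈ range n, c i • H i).degree < n := by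
  refine (degree_sum_le _ _).trans_lt ?_
  refine (Finset.sup_lt_iff (WithBot.bot_lt_coe n)).2 ?_
  intro i hi
  have hi' := mem_range.mp hi
  refine (degree_smul_le _ _).trans_lt ?_
  rw [degree_eq_natDegree (hH i hi').1.ne_zero, (hH i hi').2]
  exact WithBot.coe_lt_coe.2 hi'

lemma lin_indep (H : ℕ → ℤ[X]) (n : ℕ) (hH : ∀ i < n, (H i).Monic ∧ (H i).natDegree = i)
    (c : ℕ → ℤ) (h : ∑ i ∈ range n, c i • H i = 0) : ∀ i < n, c i = 0 := by
  induction n with
  | zero => intro i hi; omega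
  | succ n ih =>
    have hH' : ∀ i < n, (H i).Monic ∧ (H i).natDegree = i := fun i hi => hH i (by omega)
    rw [sum_range_succ] at h
    have h1 := congrArg (fun F => coeff F n) h
    have h2 : (∑ i ∈ range n, c i • H i).coeff n = 0 :=
      coeff_eq_zero_of_degree_lt (degree_sum_lt H n hH' c)
    have h3 : (H n).coeff n = 1 := by
      have := (hH n (by omega)).1.coeff_natDegree
      rwa [(hH n (by omega)).2] at this
    simp only [coeff_add, h2, coeff_smul, h3, smul_eq_mul, mul_one, zero_add, coeff_zero] at h1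
    rw [h1, zero_smul, add_zero] at h
    intro i hi
    rcases Nat.lt_succ_iff_lt_or_eq.mp hi with hi | rfl
    · exact ih hH' h i hi
    · exact h1

lemma span_deg (H : ℕ → ℤ[X]) (n : ℕ) (hH : ∀ i < n, (H i).Monic ∧ (H i).natDegree = i)
    (F : ℤ[X]) (hF : F.degree < n) : ∃ c : ℕ → ℤ, F = ∑ i ∈ range n, c i • H i := by
  induction n generalizing F with
  | zero =>
    refine ⟨0, ?_⟩
    simp only [range_zero, sum_empty]
    rw [← degree_eq_bot]
    simpa using hF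
  | succ n ih =>
    have hH' : ∀ i < n, (H i).Monic ∧ (H i).natDegree = i := fun i hi => hH i (by omega)
    have h3 : (H n).coeff n = 1 := by
      have := (hH n (by omega)).1.coeff_natDegree
      rwa [(hH n (by omega)).2] at this
    have hd : (F - F.coeff n • H n).degree < n := by
      rw [degree_lt_iff_coeff_zero]
      intro m hm
      rcases hm.eq_or_lt with rfl | hm
      · simp [h3]
      · have e1 : F.coeff m = 0 := coeff_eq_zero_of_degree_lt (hF.trans_le (by exact_mod_cast hm))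
        have e2 : (H n).coeff m = 0 :=
          coeff_eq_zero_of_natDegree_lt (by rw [(hH n (by omega)).2]; exact hm)
        simp [e1, e2]
    obtain ⟨c, hc⟩ := ih hH' _ hd
    refine ⟨Function.update c n (F.coeff n), ?_⟩
    rw [sum_range_succ, Function.update_self,
      sum_congr rfl fun i hi => by rw [Function.update_of_ne (mem_range.mp hi).ne], ← hc]
    ring

/-- The invariant of the construction. -/
structure Inv (p : ℕ) (Y : ℤ[X]) (n : ℕ) (e : ℕ → ℕ) (P Q : ℤ[X]) (H : ℕ → ℤ[X]) : Prop where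
  monic : P.Monic
  deg : P.natDegree = n
  hP : (p : ℤ[X]) ∣ P - Y ^ n
  degQ : Q.degree < n
  hH : ∀ i < n, (H i).Monic ∧ (H i).natDegree = i
  mem : ∀ c : ℕ → ℤ, ∑ i ∈ range n, c i • H i ∈ Ideal.span {P, Q} ↔ ∀ i < n, (p : ℤ) ^ e i ∣ c i

lemma Inv.scale {p : ℕ} {Y : ℤ[X]} {n : ℕ} {e e' : ℕ → ℕ} {P Q : ℤ[X]} {H : ℕ → ℤ[X]}
    (h : Inv p Y n e P Q H) (he : ∀ i < n, e' i = e i + 1) : Inv p Y n e' P (p * Q) H := by
  refine ⟨h.monic, h.deg, h.hP, ?_, h.hH, fun c => ⟨fun hc => ?_, fun hc => ?_⟩⟩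
  · refine lt_of_le_of_lt ?_ h.degQ
    rw [← nsmul_eq_mul]
    exact degree_smul_le _ _
  · obtain ⟨a, b, hab⟩ := Ideal.mem_span_pair.mp hc
    have hdP : P.degree = n := by rw [degree_eq_natDegree h.monic.ne_zero, h.deg]
    have hR : ((b * Q) %ₘ P).degree < n := hdP ▸ degree_modByMonic_lt _ h.monic
    obtain ⟨c', hc'⟩ := span_deg H n h.hH _ hR
    have hmod := modByMonic_add_div (b * Q) P
    have hRm : ∑ i ∈ range n, c' i • H i ∈ Ideal.span {P, Q} := by
      rw [← hc']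
      exact Ideal.mem_span_pair.mpr ⟨-((b * Q) /ₘ P), b, by linear_combination -hmod⟩
    have hdiv := (h.mem c').mp hRm
    have hz : ∑ i ∈ range n, (c i - p * c' i) • H i = 0 := by
      have e1 : ∑ i ∈ range n, (c i - p * c' i) • H i =
          ∑ i ∈ range n, c i • H i - p * ∑ i ∈ range n, c' i • H i := by
        rw [mul_sum, ← sum_sub_distrib]
        refine sum_congr rfl fun i _ => ?_
        simp only [zsmul_eq_mul]; push_cast; ring
      refine eq_zero_of_dvd_of_degree_lt (p := P) ?_ (hdP ▸ degree_sum_lt H n h.hH _)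
      rw [e1, ← hc', ← hab]
      exact ⟨a + p * ((b * Q) /ₘ P), by linear_combination (-p : ℤ[X]) * hmod⟩
    intro i hi
    have := lin_indep H n h.hH _ hz i hi
    rw [he i hi, pow_succ', sub_eq_zero.mp this]
    exact mul_dvd_mul_left _ (hdiv i hi)
  · have : ∀ i, ∃ d : ℤ, i < n → c i = p * d ∧ (p : ℤ) ^ e i ∣ d := by
      intro i
      by_cases hi : i < n
      · obtain ⟨d, hd⟩ := hc i hi
        exact ⟨p ^ e i * d, fun _ => ⟨by rw [hd, he i hi]; ring, dvd_mul_right _ _⟩⟩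
      · exact ⟨0, fun h => absurd h hi⟩
    choose c' hc' using this
    obtain ⟨a, b, hab⟩ := Ideal.mem_span_pair.mp ((h.mem c').mpr fun i hi => (hc' i hi).2)
    have e1 : ∑ i ∈ range n, c i • H i = p * ∑ i ∈ range n, c' i • H i := by
      rw [mul_sum]
      refine sum_congr rfl fun i hi => ?_
      rw [(hc' i (mem_range.mp hi)).1]
      simp only [zsmul_eq_mul]; push_cast; ring
    rw [e1, ← hab]
    exact Ideal.mem_span_pair.mpr ⟨p * a, b, by ring⟩

lemma Inv.extend {p : ℕ} {Y : ℤ[X]} (hY : Y.Monic) (hY1 : Y.natDegree = 1) {n m : ℕ}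
    {e : ℕ → ℕ} {P Q : ℤ[X]} {H : ℕ → ℤ[X]} (h : Inv p Y n e P Q H) (hQ : (p : ℤ[X]) ∣ Q)
    (hm : 0 < m) (he : ∀ i, n ≤ i → e i = 0) :
    Inv p Y (n + m) e (Y ^ m * P - Q) P fun i => if i < n then H i else Y ^ (i - n) * P := by
  have hdP : P.degree = n := by rw [degree_eq_natDegree h.monic.ne_zero, h.deg]
  have hmon : ∀ k, (Y ^ k * P).Monic := fun k => (hY.pow k).mul h.monic
  have hdeg : ∀ k, (Y ^ k * P).natDegree = k + n := fun k => by
    rw [(hY.pow k).natDegree_mul h.monic, hY.natDegree_pow, hY1, h.deg, mul_one]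
  have hlt : Q.degree < (Y ^ m * P).degree := by
    rw [degree_eq_natDegree (hmon m).ne_zero, hdeg]
    exact h.degQ.trans_le (by exact_mod_cast Nat.le_add_left n m)
  have hspan : Ideal.span {Y ^ m * P - Q, P} = Ideal.span {P, Q} := by
    ext F
    simp only [Ideal.mem_span_pair]
    constructor
    · rintro ⟨a, b, rfl⟩
      exact ⟨a * Y ^ m + b, -a, by ring⟩
    · rintro ⟨a, b, rfl⟩
      exact ⟨-b, a + b * Y ^ m, by ring⟩
  refine ⟨(hmon m).sub_of_left hlt, ?_, ?_, ?_, ?_, fun c => ?_⟩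
  · rw [natDegree_eq_of_degree_eq (degree_sub_eq_left_of_degree_lt hlt), hdeg, add_comm]
  · have : Y ^ m * P - Q - Y ^ (n + m) = Y ^ m * (P - Y ^ n) - Q := by ring
    rw [this]
    exact dvd_sub (h.hP.mul_left _) hQ
  · rw [hdP]; exact_mod_cast (by omega)
  · intro i _
    by_cases hi : i < n
    · simpa only [if_pos hi] using h.hH i hi
    · simp only [if_neg hi]
      exact ⟨hmon _, by rw [hdeg]; omega⟩
  · rw [hspan, sum_range_add, sum_congr rfl fun i hi => by rw [if_pos (mem_range.mp hi)]]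
    have h2 : ∑ i ∈ range m, c (n + i) • (if n + i < n then H (n + i) else Y ^ (n + i - n) * P) ∈
        Ideal.span {P, Q} := by
      refine Ideal.sum_mem _ fun i _ => ?_
      rw [if_neg (by omega)]
      exact Submodule.smul_of_tower_mem _ _
        (Ideal.mul_mem_left _ _ (Ideal.subset_span (by simp)))
    rw [Ideal.add_mem_iff_left _ h2, h.mem]
    refine ⟨fun hc i _ => ?_, fun hc i hi => hc i (by omega)⟩
    by_cases hi : i < n
    · exact hc i hi
    · rw [he i (by omega)]; simp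

lemma exists_inv (p : ℕ) {Y : ℤ[X]} (hY : Y.Monic) (hY1 : Y.natDegree = 1) (E : ℕ) :
    ∀ (n : ℕ) (e : ℕ → ℕ), Antitone e → (∀ i, e i ≤ E) → (∀ i, 0 < e i ↔ i < n) →
      ∃ P Q H, Inv p Y n e P Q H ∧ (p : ℤ[X]) ∣ Q := by
  induction E with
  | zero =>
    intro n e _ h1 h2
    have : n = 0 := by
      by_contra hn
      have := (h2 0).mpr (by omega)
      have := h1 0
      omega
    subst this
    exact ⟨1, 0, fun _ => 0, ⟨monic_one, by simp, by simp, by simp, by simp, by simp⟩, by simp⟩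
  | succ E ih =>
    intro n e h0 h1 h2
    have hex : ∃ i, e i ≤ 1 := ⟨n, by have := (h2 n).not.mpr (lt_irrefl n); omega⟩
    classical
    set n' := Nat.find hex with hn'
    have hn'n : n' ≤ n := Nat.find_min' hex (by have := (h2 n).not.mpr (lt_irrefl n); omega)
    have h3 : ∀ i, 0 < e i - 1 ↔ i < n' := by
      intro i
      constructor
      · intro hi
        by_contra hc
        have := h0 (not_lt.mp hc)
        have : e n' ≤ 1 := Nat.find_spec hex
        omega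
      · intro hi
        have := Nat.find_min hex hi
        omega
    obtain ⟨P, Q, H, hI, hQ⟩ := ih n' (fun i => e i - 1) (fun i j hij => Nat.sub_le_sub_right (h0 hij) 1)
      (fun i => by have := h1 i; omega) h3
    have he : ∀ i < n, e i = e i - 1 + 1 := fun i hi => by have := (h2 i).mpr hi; omega
    rcases hn'n.eq_or_lt with h | h
    · exact ⟨P, p * Q, H, (h ▸ hI).scale he, dvd_mul_right _ _⟩
    · have := hI.extend hY hY1 hQ (m := n - n') (by omega)
        (fun i hi => by have := (h3 i).not.mpr (by omega); omega)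
      rw [Nat.add_sub_cancel' hn'n] at this
      exact ⟨_, _, _, this.scale he, dvd_mul_right _ _⟩

lemma exists_sorted (p : ℕ) (hp : p.Prime) (A : Type) [AddCommGroup A] [Finite A]
    (hA : ∀ a : A, ∃ n : ℕ, p ^ n • a = 0) :
    ∃ (n : ℕ) (e : ℕ → ℕ) (ρ : (ℕ → ℤ) →+ A), Antitone e ∧ (∀ i, 0 < e i ↔ i < n) ∧
      Function.Surjective ρ ∧ ∀ c, ρ c = 0 ↔ ∀ i < n, (p : ℤ) ^ e i ∣ c i := by
  classical
  obtain ⟨ι, _, m, hm, ⟨Ψ₀⟩⟩ := AddCommGroup.equiv_directSum_zmod_of_finite' A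
  let Ψ : A ≃+ ∀ i, ZMod (m i) := Ψ₀.trans (DirectSum.addEquivProd _)
  have hpow : ∀ i, ∃ k, 0 < k ∧ m i = p ^ k := by
    intro i
    obtain ⟨k, hk⟩ := hA (Ψ.symm (Pi.single i 1))
    have h1 := congrFun (congrArg Ψ hk) i
    simp only [map_nsmul, AddEquiv.apply_symm_apply, Pi.smul_apply, Pi.single_eq_same,
      nsmul_eq_mul, mul_one, map_zero, Pi.zero_apply] at h1
    obtain ⟨j, -, hj⟩ := (Nat.dvd_prime_pow hp).mp ((ZMod.natCast_eq_zero_iff _ _).mp h1)
    refine ⟨j, Nat.pos_of_ne_zero ?_, hj⟩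
    rintro rfl
    have := hm i
    simp at hj
    omega
  choose k hk0 hk using hpow
  let n := Fintype.card ι
  let σ₀ : Fin n ≃ ι := (Fintype.equivFin ι).symm
  let f : Fin n → ℕᵒᵈ := fun i => OrderDual.toDual (k (σ₀ i))
  let σ : Fin n ≃ ι := (Tuple.sort f).trans σ₀
  have hσ : ∀ i j : Fin n, i ≤ j → k (σ j) ≤ k (σ i) := fun i j hij => Tuple.monotone_sort f hij
  let ρ₀ : (ℕ → ℤ) →+ ∀ i, ZMod (m i) := AddMonoidHom.mk'
    (fun c i => ((c (σ.symm i) : ℤ) : ZMod (m i))) (by intro a b; funext i; simp)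
  refine ⟨n, fun i => if h : i < n then k (σ ⟨i, h⟩) else 0, Ψ.symm.toAddMonoidHom.comp ρ₀,
    ?_, ?_, ?_, ?_⟩
  · intro i j hij
    by_cases hj : j < n
    · have hi : i < n := by omega
      simp only [dif_pos hi, dif_pos hj]
      exact hσ _ _ hij
    · simp only [dif_neg hj]
      exact Nat.zero_le _
  · intro i
    by_cases hi : i < n
    · simp [hi, hk0]
    · simp [hi]
  · refine Ψ.symm.surjective.comp fun x => ?_
    choose y hy using fun i => ZMod.intCast_surjective (x i)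
    refine ⟨fun j => if h : j < n then y (σ ⟨j, h⟩) else 0, funext fun i => ?_⟩
    simp [ρ₀, hy]
  · intro c
    change Ψ.symm (ρ₀ c) = 0 ↔ _
    rw [AddEquiv.map_eq_zero_iff, funext_iff]
    simp only [ρ₀, AddMonoidHom.mk'_apply, Pi.zero_apply, ZMod.intCast_zmod_eq_zero_iff_dvd]
    constructor
    · intro h i hi
      have := h (σ ⟨i, hi⟩)
      simpa [dif_pos hi, hk] using this
    · intro h i
      have := h (σ.symm i) (σ.symm i).2
      simpa [hk] using this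

theorem exists_two_gen (p : ℕ) (hp : p.Prime) {Y : ℤ[X]} (hY : Y.Monic) (hY1 : Y.natDegree = 1)
    (A : Type) [AddCommGroup A] [Finite A] (hA : ∀ a : A, ∃ n : ℕ, p ^ n • a = 0) :
    ∃ (n : ℕ) (P Q : ℤ[X]) (θ : ℤ[X] →+ A), (p : ℤ[X]) ∣ P - Y ^ n ∧ (p : ℤ[X]) ∣ Q ∧
      Function.Surjective θ ∧ ∀ F, θ F = 0 ↔ F ∈ Ideal.span {P, Q} := by
  obtain ⟨n, e, ρ, h0, h2, hρ, hker⟩ := exists_sorted p hp A hA
  obtain ⟨P, Q, H, hI, hQ⟩ := exists_inv p hY hY1 (e 0) n e h0 (fun i => h0 (Nat.zero_le i)) h2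
  let J : Ideal ℤ[X] := Ideal.span {P, Q}
  let Φ : (ℕ → ℤ) →+ ℤ[X] ⧸ J := AddMonoidHom.mk'
    (fun c => Ideal.Quotient.mk J (∑ i ∈ range n, c i • H i)) (by
      intro a b
      simp only [Pi.add_apply, add_smul, sum_add_distrib, map_add])
  have hΦ : Function.Surjective Φ := by
    intro x
    obtain ⟨F, rfl⟩ := Ideal.Quotient.mk_surjective x
    have hdP : P.degree = n := by rw [degree_eq_natDegree hI.monic.ne_zero, hI.deg]
    obtain ⟨c, hc⟩ := span_deg H n hI.hH (F %ₘ P) (hdP ▸ degree_modByMonic_lt _ hI.monic)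
    refine ⟨c, ?_⟩
    change Ideal.Quotient.mk J _ = _
    rw [← hc, Ideal.Quotient.eq]
    exact Ideal.mem_span_pair.mpr ⟨-(F /ₘ P), 0, by linear_combination -modByMonic_add_div F P⟩
  have hΦ0 : ∀ c, Φ c = 0 ↔ ρ c = 0 := fun c => by
    change Ideal.Quotient.mk J _ = 0 ↔ _
    rw [Ideal.Quotient.eq_zero_iff_mem, hI.mem, hker]
  let θ' : (ℤ[X] ⧸ J) →+ A := Φ.liftOfSurjective hΦ ⟨ρ, fun c hc => (hΦ0 c).mp hc⟩
  have hθ' : ∀ c, θ' (Φ c) = ρ c := fun c => AddMonoidHom.liftOfRightInverse_comp_apply _ _ _ _ c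
  refine ⟨n, P, Q, θ'.comp (Ideal.Quotient.mk J).toAddMonoidHom, hI.hP, hQ, fun a => ?_, fun F => ?_⟩
  · obtain ⟨c, rfl⟩ := hρ a
    exact ⟨_, hθ' c⟩
  · change θ' (Ideal.Quotient.mk J F) = 0 ↔ _
    obtain ⟨c, hc⟩ := hΦ (Ideal.Quotient.mk J F)
    rw [← Ideal.Quotient.eq_zero_iff_mem, ← hc, hθ', hΦ0]

end Pool.Agent.MP_ac0662_al

end

-- part MP_ac0662_al.Main
section

namespace Pool.Agent.MP_ac0662_al

open Polynomial

section laurent

open LaurentPolynomial

variable (d : ℕ)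

/-- The variable, as a unit of the Laurent polynomial ring. -/
noncomputable def tU : (LaurentPolynomial (ZMod d))ˣ := unitOfInvertible (T 1)

lemma tU_zpow (i : ℤ) : ((tU d ^ i : (LaurentPolynomial (ZMod d))ˣ) : LaurentPolynomial (ZMod d)) =
    T i := by
  induction i using Int.induction_on with
  | zero => simp
  | succ i ih => rw [zpow_add_one, Units.val_mul, ih, T_add]; rfl
  | pred i ih => rw [zpow_sub_one, Units.val_mul, ih, T_sub]; rfl

lemma gen_tU : Gen (tU d) := by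
  intro S hS x
  induction x using LaurentPolynomial.induction_on' with
  | add p q hp hq => exact S.add_mem hp hq
  | C_mul_T n a =>
    obtain ⟨m, rfl⟩ := ZMod.intCast_surjective a
    rw [map_intCast, ← zsmul_eq_mul, ← tU_zpow]
    exact S.zsmul_mem (hS n) m

lemma free_tU : Free (tU d) d := by
  intro Z _ z hz
  let f : ℤ → ZMod d →+ Z := fun i => ZMod.lift d ⟨zmultiplesHom Z (z i), by simpa using hz i⟩
  have hf : ∀ i, f i 1 = z i := fun i => by
    have := ZMod.lift_coe d (⟨zmultiplesHom Z (z i), by simpa using hz i⟩ :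
      { f : ℤ →+ Z // f d = 0 }) 1
    simpa using this
  refine ⟨(Finsupp.liftAddHom f).comp AddMonoidAlgebra.coeffAddEquiv.toAddMonoidHom, fun i => ?_⟩
  rw [tU_zpow]
  change Finsupp.liftAddHom f (Finsupp.single i 1) = _
  rw [Finsupp.liftAddHom_apply_single, hf]

lemma nsmul_laurent (x : LaurentPolynomial (ZMod d)) : d • x = 0 := by
  rw [nsmul_eq_mul, ← map_natCast LaurentPolynomial.C, ZMod.natCast_self, map_zero, zero_mul]

lemma reg_tU (F : LaurentPolynomial (ZMod d))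
    (h : ((tU d : LaurentPolynomial (ZMod d)) - 1) * F = 0) : F = 0 := by
  obtain ⟨n, f, hf⟩ := exists_T_pow F
  have h1 : toLaurent ((X - Polynomial.C 1) * f) = 0 := by
    rw [map_mul, hf, ← mul_assoc]
    have : toLaurent (X - Polynomial.C 1 : (ZMod d)[X]) = (tU d : LaurentPolynomial (ZMod d)) - 1 := by
      simp [tU]
    rw [this, h, zero_mul]
  rw [toLaurent_eq_zero, (monic_X_sub_C 1).mul_right_eq_zero_iff] at h1
  rw [h1, map_zero] at hf
  exact (isUnit_T (n : ℤ)).mul_left_eq_zero.mp hf.symm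

end laurent

section ring

variable {Λ : Type} [CommRing Λ] (t : Λˣ)

lemma ww_sub_two : ww t - 2 = (t⁻¹ : Λˣ) * ((t : Λ) - 1) ^ 2 := by
  unfold ww
  linear_combination (2 - (t : Λ)) * Units.inv_mul t

lemma g_form {p n : ℕ} {P Q : ℤ[X]} (hP : (p : ℤ[X]) ∣ P - (X - C 2) ^ n) (hQ : (p : ℤ[X]) ∣ Q) :
    ∃ Y, aeval (ww t) P * (t - 1) + aeval (ww t) Q =
      ((t⁻¹ : Λˣ) : Λ) ^ n * ((t : Λ) - 1) ^ (2 * n + 1) + p * Y := by
  obtain ⟨P₁, h1⟩ := hP
  obtain ⟨Q₁, rfl⟩ := hQ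
  refine ⟨aeval (ww t) P₁ * (t - 1) + aeval (ww t) Q₁, ?_⟩
  rw [sub_eq_iff_eq_add.mp h1]
  simp only [map_add, map_mul, map_natCast, map_pow, map_sub, aeval_X, map_ofNat, ww_sub_two,
    mul_pow, ← pow_mul]
  ring

lemma reg_add_nilpotent {v ν : Λ} (hv : ∀ F, F * v = 0 → F = 0) (hν : IsNilpotent ν) (F : Λ)
    (h : F * (v + ν) = 0) : F = 0 := by
  obtain ⟨k, hk⟩ := hν
  have h1 : ∀ j : ℕ, F * v ^ j = F * (-ν) ^ j := by
    intro j
    induction j with
    | zero => simp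
    | succ j ih => rw [pow_succ, pow_succ]; linear_combination v * ih + (-ν) ^ j * h
  have h2 : ∀ (j : ℕ) (F : Λ), F * v ^ j = 0 → F = 0 := by
    intro j
    induction j with
    | zero => simp
    | succ j ih => intro F hF; exact ih F (hv _ (by rw [mul_assoc, ← pow_succ, hF]))
  exact h2 k F (by rw [h1, neg_pow, hk, mul_zero, mul_zero])

lemma exists_order {p : ℕ} (hp : p.Prime) (hn : IsNilpotent (p : Λ)) {n : ℕ} {g Y : Λ}
    (hg : g = ((t⁻¹ : Λˣ) : Λ) ^ n * ((t : Λ) - 1) ^ (2 * n + 1) + p * Y) :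
    ∃ k : ℕ, ∃ c, ((t ^ ((p ^ k : ℕ) : ℤ) : Λˣ) : Λ) - 1 = c * (t - 1) * g := by
  let I : Ideal Λ := Ideal.span {((t : Λ) - 1) * g}
  let μ := Ideal.Quotient.mk I
  have hpn : IsNilpotent (p : Λ ⧸ I) := by simpa using hn.map μ
  have h0 : μ (((t : Λ) - 1) * g) = 0 := Ideal.Quotient.eq_zero_iff_mem.2 (Ideal.subset_span rfl)
  have hs : IsNilpotent (μ ((t : Λ) - 1)) := by
    apply IsNilpotent.of_pow (m := 2 * n + 2)
    have e : ((t : Λ) - 1) ^ (2 * n + 2) =
        (t : Λ) ^ n * (((t : Λ) - 1) * g) + p * (-((t : Λ) ^ n * (t - 1) * Y)) := by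
      have : (t : Λ) ^ n * ((t⁻¹ : Λˣ) : Λ) ^ n = 1 := by rw [← mul_pow]; simp
      rw [hg]
      linear_combination (-((t : Λ) - 1) ^ (2 * n + 2)) * this
    rw [← map_pow, e, map_add, map_mul, h0, mul_zero, zero_add, map_mul, map_natCast]
    exact (Commute.all _ _).isNilpotent_mul_right hpn
  obtain ⟨a, ha⟩ := hs
  obtain ⟨b, hb⟩ := hpn
  obtain ⟨r, hr⟩ := exists_add_pow_prime_pow_eq hp (μ ((t : Λ) - 1)) 1 a
  have h1 : μ ((t : Λ) - 1) ^ p ^ a = 0 :=
    pow_eq_zero_of_le (Nat.lt_pow_self hp.one_lt).le ha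
  have h2 : (p : Λ ⧸ I) ∣ μ t ^ p ^ a - 1 := by
    rw [h1, one_pow, zero_add, map_sub, map_one, sub_add_cancel] at hr
    exact ⟨(μ t - 1) * r, by rw [hr]; ring⟩
  have h3 := dvd_sub_pow_of_dvd_sub h2 b
  rw [pow_succ, hb, zero_mul, zero_dvd_iff, one_pow, ← pow_mul, ← pow_add] at h3
  have h4 : (t : Λ) ^ p ^ (a + b) - 1 ∈ I := by
    rw [← Ideal.Quotient.eq_zero_iff_mem, map_sub, map_pow, map_one]; exact h3
  obtain ⟨c, hc⟩ := Ideal.mem_span_singleton'.mp h4
  exact ⟨a + b, c, by rw [zpow_natCast, Units.val_pow_eq_pow_val, ← hc, mul_assoc]⟩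

lemma exists_beta {d : ℕ} (hgen : Gen t) (hfree : Free t d) {A : Type} [AddCommGroup A]
    (hA : ∀ a : A, d • a = 0) {P Q : ℤ[X]} (θ : ℤ[X] →+ A) (hθ : Function.Surjective θ)
    (hker : ∀ F, θ F = 0 ↔ F ∈ Ideal.span {P, Q}) :
    ∃ β : Λ →+ Λ →+ A, (∀ x y, β (t * x) (t * y) = β x y) ∧
      (∀ F y, β (F * (aeval (ww t) P * (t - 1) + aeval (ww t) Q)) y =
        β y (F * (aeval (ww t) P * (t - 1) + aeval (ww t) Q))) ∧
      ∀ a, ∃ x y, a = β x y - β y x := by
  let u : ℤ → A := fun k => θ (Chebyshev.S ℤ (k - 1))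
  have hu : ∀ k, u (-k) = - u k := fun k => by simp only [u, Chebyshev.S_neg_sub_one, map_neg]
  have hu0 : u 0 = 0 := by simp [u]
  choose φ hφ using fun i : ℤ => hfree A (fun j => if j < i then u (i - j) else 0)
    (fun j => hA _)
  obtain ⟨β, hβ⟩ := hfree (Λ →+ A) φ (fun i => by ext x; exact hA _)
  obtain ⟨ψ, hψ⟩ := hfree A u (fun _ => hA _)
  have hext : ∀ {K : Type} [AddCommGroup K] (f f' : Λ →+ K),
      (∀ i : ℤ, f ((t ^ i : Λˣ) : Λ) = f' ((t ^ i : Λˣ) : Λ)) → ∀ x, f x = f' x := by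
    intro K _ f f' h x
    exact sub_eq_zero.mp (hgen (f - f').ker (fun i => sub_eq_zero.mpr (h i)) x)
  have h1 : ∀ (n : ℕ) (k : ℤ), ψ (ww t ^ n * ((t ^ k : Λˣ) : Λ)) =
      θ (X ^ n * Chebyshev.S ℤ (k - 1)) := by
    intro n
    induction n with
    | zero => intro k; simpa using hψ k
    | succ n ih =>
      intro k
      rw [pow_succ, mul_assoc, ww_mul_zpow, mul_add, map_add, ih, ih, ← map_add]
      congr 1
      have := Chebyshev.S_add_one ℤ (k - 1)
      rw [sub_add_cancel] at this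
      rw [add_sub_cancel_right, this]; ring
  have h2 : ∀ (F : ℤ[X]) (k : ℤ), ψ (aeval (ww t) F * ((t ^ k : Λˣ) : Λ)) =
      θ (F * Chebyshev.S ℤ (k - 1)) := by
    intro F k
    induction F using Polynomial.induction_on' with
    | add a b ha hb => simp [add_mul, ha, hb]
    | monomial n a =>
      rw [aeval_monomial, eq_intCast, mul_assoc, ← zsmul_eq_mul, map_zsmul, h1, ← map_zsmul,
        ← C_mul_X_pow_eq_monomial, eq_intCast, mul_assoc, zsmul_eq_mul]
  have h3 : ∀ (j : ℤ) x, β x ((t ^ j : Λˣ) : Λ) - β ((t ^ j : Λˣ) : Λ) x =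
      ψ ((t ^ (-j) : Λˣ) * x) := by
    intro j
    refine hext (β.flip ((t ^ j : Λˣ) : Λ) - β ((t ^ j : Λˣ) : Λ))
      (ψ.comp (AddMonoidHom.mulLeft ((t ^ (-j) : Λˣ) : Λ))) fun i => ?_
    change β _ _ - β _ _ = ψ (_ * _)
    rw [hβ, hβ, hφ, hφ, ← Units.val_mul, ← zpow_add, hψ, neg_add_eq_sub]
    rcases lt_trichotomy i j with h | rfl | h
    · rw [if_neg h.not_gt, if_pos h, ← neg_sub j i, hu, zero_sub]
    · simp [hu0]
    · rw [if_pos h, if_neg h.not_gt, sub_zero]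
  have hP : ∀ F, θ (P * F) = 0 := fun F =>
    (hker _).2 (Ideal.mul_mem_right _ _ (Ideal.subset_span (by simp)))
  have hQ : ∀ F, θ (Q * F) = 0 := fun F =>
    (hker _).2 (Ideal.mul_mem_right _ _ (Ideal.subset_span (by simp)))
  have h4 : ∀ F, ψ (F * (aeval (ww t) P * (t - 1) + aeval (ww t) Q)) = 0 := by
    refine hext (ψ.comp (AddMonoidHom.mulRight _)) 0 fun i => ?_
    change ψ (_ * _) = 0
    have e : ((t ^ i : Λˣ) : Λ) * (aeval (ww t) P * (t - 1) + aeval (ww t) Q) =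
        aeval (ww t) P * ((t ^ (i + 1) : Λˣ) : Λ) - aeval (ww t) P * ((t ^ i : Λˣ) : Λ) +
          aeval (ww t) Q * ((t ^ i : Λˣ) : Λ) := by
      rw [zpow_add_one, Units.val_mul]; ring
    rw [e, map_add, map_sub, h2, h2, h2, hP, hP, hQ]
    simp
  refine ⟨β, fun x y => ?_, fun F y => ?_, fun a => ?_⟩
  · have := hext ((β.comp (AddMonoidHom.mulLeft (t : Λ))).compl₂ (AddMonoidHom.mulLeft (t : Λ))) β
      (fun i => by
        ext1 y
        refine hext _ _ (fun j => ?_) y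
        change β (t * _) (t * _) = _
        rw [mul_comm (t : Λ), mul_comm (t : Λ), ← Units.val_mul, ← Units.val_mul, ← zpow_add_one,
          ← zpow_add_one, hβ, hβ, hφ, hφ]
        simp) x
    exact DFunLike.congr_fun this y
  · refine hext (β _) (β.flip _) (fun j => ?_) y
    change β _ _ = β _ _
    rw [← sub_eq_zero, h3, ← mul_assoc, h4]
  · obtain ⟨F, rfl⟩ := hθ a
    refine ⟨aeval (ww t) F * t, 1, ?_⟩
    have e1 := h3 0 (aeval (ww t) F * t)
    have e2 := h2 F 1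
    simp only [zpow_zero, Units.val_one, neg_zero, one_mul, zpow_one, sub_self, Chebyshev.S_zero,
      mul_one] at e1 e2
    rw [e1, e2]

end ring

lemma pow_dvd_choose {p : ℕ} (hp : p.Prime) (e : ℕ) : p ^ e ∣ (p ^ (e + 1)).choose 2 := by
  have h : 2 * (p ^ (e + 1)).choose 2 = p ^ (e + 1) * (p ^ (e + 1) - 1) := by
    rw [Nat.choose_two_right, Nat.two_mul_div_two_of_even (Nat.even_mul_pred_self _)]
  rcases hp.eq_two_or_odd' with rfl | hodd
  · refine ⟨2 ^ (e + 1) - 1, ?_⟩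
    apply Nat.eq_of_mul_eq_mul_left (by norm_num : 0 < 2)
    rw [h]; ring
  · apply (Nat.Coprime.pow_left e (Nat.coprime_two_right.2 hodd)).dvd_of_dvd_mul_left
    rw [h]
    exact Dvd.dvd.mul_right (pow_dvd_pow p (Nat.le_succ e)) _

theorem main_aux (p : ℕ) (hp : p.Prime) (A : Type) [AddCommGroup A] [Finite A] (e : ℕ)
    (he : ∀ a : A, p ^ e • a = 0) {Λ : Type} [CommRing Λ] (t : Λˣ) (d : ℕ) (hd : d = p ^ (e + 1))
    (hgen : Gen t) (hfree : Free t d) (hΛ : ∀ x : Λ, d • x = 0)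
    (hrs : ∀ F : Λ, ((t : Λ) - 1) * F = 0 → F = 0) :
    ∃ (G : Type) (_ : Group G), Finite G ∧ IsPGroup p G ∧ (∃ x y : G, x * y ≠ y * x) ∧
      Nonempty (A ≃+ (groupHomology.H2 (Rep.trivial ℤ G ℤ))) := by
  have hkill : ∀ m, p ^ e ∣ m → ∀ a : A, m • a = 0 := by
    rintro _ ⟨k, rfl⟩ a
    rw [mul_comm, mul_smul, he, smul_zero]
  obtain ⟨n, P, Q, θ, hP, hQ, hθ, hker⟩ :=
    exists_two_gen p hp (monic_X_sub_C 2) (natDegree_X_sub_C 2) A fun a => ⟨e, he a⟩
  obtain ⟨β, hβ1, hβ2, hβ3⟩ := exists_beta t hgen hfree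
    (hkill d (hd ▸ pow_dvd_pow p (Nat.le_succ e))) θ hθ hker
  let D : Datum Λ A := ⟨t, β, hβ1⟩
  obtain ⟨Y, hY⟩ := g_form t hP hQ
  set g := aeval (ww t) P * ((t : Λ) - 1) + aeval (ww t) Q with hg
  have hpn : IsNilpotent (p : Λ) := ⟨e + 1, by simpa [hd] using hΛ 1⟩
  have hpY : IsNilpotent ((p : Λ) * Y) := (Commute.all _ _).isNilpotent_mul_right hpn
  obtain ⟨k, hk⟩ := exists_order t hp hpn hY
  obtain ⟨κ, hκ1, hκ2, hκ3⟩ := exists_kappa D d hgen hfree hΛ
    (hkill _ (hd ▸ pow_dvd_choose hp e)) g hβ2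
  obtain ⟨ev, hev1, hev2, hev3⟩ := exists_ev t d hgen hfree hΛ
  let S : Setup D d (p ^ k) g := ⟨κ, ev, hκ1, hκ2, hκ3, hev1, hev2, hev3, hΛ, hβ2, hk⟩
  have hqd : p ^ k * d ≠ 0 := by have := hp.pos; rw [hd]; positivity
  have hrg : ∀ F, F * g = 0 → F = 0 := by
    rw [hY]
    refine reg_add_nilpotent (fun F hF => ?_) hpY
    have h1 : ∀ (j : ℕ) (F : Λ), ((t : Λ) - 1) ^ j * F = 0 → F = 0 := by
      intro j
      induction j with
      | zero => simp
      | succ j ih => intro F hF; exact hrs _ (ih _ (by rw [← mul_assoc, ← pow_succ, hF]))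
    rw [← mul_assoc, mul_comm] at hF
    exact ((t⁻¹.isUnit).pow n).mul_left_eq_zero.mp (h1 _ _ hF)
  have hu : ¬ IsUnit g := by
    intro hu
    have h1 : IsUnit (-((p : Λ) * Y) + g) :=
      hpY.neg.isUnit_add_right_of_commute hu (Commute.all _ _)
    rw [hY, add_comm, add_neg_cancel_right, pow_succ, ← mul_assoc] at h1
    obtain ⟨F, hF⟩ := (isUnit_of_mul_isUnit_right h1).exists_right_inv
    have h2 : ev (((t : Λ) - 1) * F) = 0 := S.ev_s F
    have : Fact (1 < d) := ⟨hd ▸ Nat.one_lt_pow (Nat.succ_ne_zero e) hp.one_lt⟩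
    rw [hF] at h2
    exact one_ne_zero (hev1.symm.trans h2)
  refine ⟨WW D ⧸ S.LL, inferInstance, S.finite hgen hqd, fun u => ⟨k + (e + 1) + (e + 1), ?_⟩,
    S.nonabelian hqd hrs hu, S.schur hgen hqd θ hθ hker hg hrg hrs hβ3⟩
  rw [pow_add, pow_add, ← hd]
  exact S.pow_eq_one u

theorem main (p : ℕ) (hp : p.Prime) (A : Type) [AddCommGroup A] [Finite A]
    (hA : ∀ a : A, ∃ n : ℕ, p ^ n • a = 0) :
    ∃ (G : Type) (_ : Group G), Finite G ∧ IsPGroup p G ∧ (∃ x y : G, x * y ≠ y * x) ∧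
      Nonempty (A ≃+ (groupHomology.H2 (Rep.trivial ℤ G ℤ))) := by
  obtain ⟨e, he⟩ : ∃ e, ∀ a : A, p ^ e • a = 0 := by
    choose f hf using hA
    obtain ⟨e, he⟩ := (Set.finite_range f).bddAbove
    refine ⟨e, fun a => ?_⟩
    obtain ⟨k, hk⟩ := Nat.exists_eq_add_of_le' (he ⟨a, rfl⟩)
    rw [hk, pow_add, mul_smul, hf, smul_zero]
  exact main_aux p hp A e he (tU (p ^ (e + 1))) _ rfl (gen_tU _) (free_tU _) (nsmul_laurent _)
    (reg_tU _)

end Pool.Agent.MP_ac0662_al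

end
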